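import Pool.Agent.Helper830.Weiss.Main

set_option autoImplicit false
open Filter Topology

namespace Pool.Agent.Results.MP_8988f3_an.WeissNegative

/-- A `ℤ²`-shift over the alphabet `Fin k`: a nonempty closed translation invariant set of configurations. -/
def IsShift {k : ℕ} (X : Set (ℤ × ℤ → Fin k)) : Prop :=
  X.Nonempty ∧ IsClosed X ∧ ∀ x ∈ X, ∀ v : ℤ × ℤ, (fun u => x (u + v)) ∈ X

/-- A shift of finite type: the configurations all of whose restrictions to translates of a finite set `C` lie in a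
set `P` of allowed patterns (nonempty). -/
def IsSFT {k : ℕ} (X : Set (ℤ × ℤ → Fin k)) : Prop :=
  X.Nonempty ∧ ∃ (C : Finset (ℤ × ℤ)) (P : Set (C → Fin k)),
    X = {x | ∀ v : ℤ × ℤ, (fun u : C => x (v + u.1)) ∈ P}

/-- A factor code (surjective sliding block code) from `X` onto `Y`: continuous on `X`, commuting with all
translations, with image `Y`. -/
def IsFactorCode {k l : ℕ} (X : Set (ℤ × ℤ → Fin k)) (Y : Set (ℤ × ℤ → Fin l))
    (φ : (ℤ × ℤ → Fin k) → (ℤ × ℤ → Fin l)) : Prop :=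
  ContinuousOn φ X ∧ (∀ x ∈ X, ∀ v : ℤ × ℤ, φ (fun u => x (u + v)) = fun u => φ x (u + v)) ∧ φ '' X = Y

/-- A sofic shift: a factor of a shift of finite type. -/
def IsSofic {l : ℕ} (Y : Set (ℤ × ℤ → Fin l)) : Prop :=
  ∃ (k : ℕ) (X : Set (ℤ × ℤ → Fin k)), IsSFT X ∧ ∃ φ, IsFactorCode X Y φ

/-- The number of patterns on the square `{0,…,n-1}²` which occur in points of `X`. -/
noncomputable def patternCount {k : ℕ} (X : Set (ℤ × ℤ → Fin k)) (n : ℕ) : ℕ :=
  ((fun (x : ℤ × ℤ → Fin k) (i : Fin n × Fin n) => x ((i.1 : ℤ), (i.2 : ℤ))) '' X).ncard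

/-- `h` is the topological entropy of `X`. -/
def HasEntropy {k : ℕ} (X : Set (ℤ × ℤ → Fin k)) (h : ℝ) : Prop :=
  Tendsto (fun n : ℕ => Real.log (patternCount X n) / (n : ℝ) ^ 2) atTop (𝓝 h)

/-- Weiss's question has a negative answer: there is a sofic `ℤ²`-shift `Y` such that every `ℤ²`-shift of finite type
which admits a factor code onto `Y` has entropy strictly larger than the entropy of `Y`. -/
theorem result : ∃ (l : ℕ) (Y : Set (ℤ × ℤ → Fin l)), IsShift Y ∧ IsSofic Y ∧ ∃ h : ℝ, HasEntropy Y h ∧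
    ∀ (k : ℕ) (X : Set (ℤ × ℤ → Fin k)), IsSFT X → (∃ φ, IsFactorCode X Y φ) →
      ∃ h' : ℝ, HasEntropy X h' ∧ h < h' := by
  obtain ⟨l, Y, h1, h2⟩ := Pool.Agent.Helper830.Weiss.weiss
  exact ⟨l, Y, Pool.Agent.Helper830.Weiss.IsSofic.isShift h1, h1, h2⟩

end Pool.Agent.Results.MP_8988f3_an.WeissNegative
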